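import Pool.Agent.Y142.SS.Stm

set_option autoImplicit false

/-!
Project Y142-SI (owner helper142): the Tate conjecture for endomorphisms at 100 percent of the primes `ℓ`.
Statements of the self-contained sub-tasks.
-/

open Matrix Polynomial Filter Topology NumberField IsDedekindDomain
open Pool.Agent.Y142.ZO Pool.Agent.Y142.ZI
open Pool.Agent.Y142.ZD (DistPow)

namespace Pool.Agent.Y142.SI

/-- task SUBF: factors over `ℚ_ℓ` are the same as stable sets of roots -/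
def S_SUBF : Prop := ∀ Q : ℚ[X], Q.Monic → Q.Separable →
  ∃ b : ℕ, ∀ ℓ : ℕ, b < ℓ → ∀ _ : Fact ℓ.Prime, ∀ σ : GK ℚ, FrobAt ℓ σ →
    ∃ ι : QQ →+* AlgebraicClosure ℚ_[ℓ],
      (∀ R : ℚ_[ℓ][X], R ∣ Q.map (algebraMap ℚ ℚ_[ℓ]) →
        ∀ x : QQ, aeval x Q = 0 → aeval (ι x) R = 0 → aeval (ι (σ x)) R = 0) ∧
      ∀ T : Set QQ, (∀ x ∈ T, aeval x Q = 0) → (∀ x ∈ T, σ x ∈ T) →
        ∃ R : ℚ_[ℓ][X], R.Monic ∧ R ∣ Q.map (algebraMap ℚ ℚ_[ℓ]) ∧ R.natDegree = T.ncard ∧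
          ∀ x : QQ, aeval x Q = 0 → (aeval (ι x) R = 0 ↔ x ∈ T)

/-- task EF: the field of coefficients is contained in the splitting fields -/
def S_EF : Prop := ∀ E : IntermediateField ℚ QQ, FiniteDimensional ℚ E → Normal ℚ E →
  ∀ Q : ℚ[X], Q.Monic → Q.Separable → 0 < Q.natDegree →
  (∃ b : ℕ, ∀ ℓ : ℕ, b < ℓ → ∀ _ : Fact ℓ.Prime,
    ∃ (N : ℕ) (g : Matrix (Fin N) (Fin N) ℚ_[ℓ]) (ε : E →+* Matrix (Fin N) (Fin N) ℚ_[ℓ]),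
      g.charpoly = Q.map (algebraMap ℚ ℚ_[ℓ]) ∧ ∀ a : E, ε a * g = g * ε a) →
  ∀ h : GK ℚ, (∀ x : QQ, aeval x Q = 0 → h x = x) → ∀ a ∈ E, h a = a

/-- task TRD: the dimension of the algebra generated by the coefficients -/
def S_TRD : Prop := ∀ (ℓ : ℕ) [Fact ℓ.Prime] (N n : ℕ) (E : IntermediateField ℚ QQ),
  FiniteDimensional ℚ E → 0 < n → ∀ ε : E →+* Matrix (Fin N) (Fin N) ℚ_[ℓ],
  (∀ a : E, (ε a).trace = (n : ℚ_[ℓ]) * ((Algebra.trace ℚ E a : ℚ) : ℚ_[ℓ])) →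
  Module.finrank ℚ E ≤ Module.finrank ℚ_[ℓ] (Submodule.span ℚ_[ℓ] (Set.range ε))

/-- the matrices which commute with `ρ(U)` -/
def Comm {ℓ : ℕ} [Fact ℓ.Prime] {N : ℕ} {G : Type} [Group G]
    (ρ : G →* Matrix (Fin N) (Fin N) ℚ_[ℓ]) (U : Subgroup G) :
    Submodule ℚ_[ℓ] (Matrix (Fin N) (Fin N) ℚ_[ℓ]) where
  carrier := {X | ∀ τ ∈ U, X * ρ τ = ρ τ * X}
  add_mem' := fun {a b} ha hb τ hτ => by rw [add_mul, mul_add, ha τ hτ, hb τ hτ]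
  zero_mem' := fun τ _ => by rw [zero_mul, mul_zero]
  smul_mem' := fun c a ha τ hτ => by rw [smul_mul_assoc, mul_smul_comm, ha τ hτ]

/-- task ENDE: the dimension of the commutant -/
def S_ENDE : Prop := ∀ (ℓ : ℕ) [Fact ℓ.Prime] (N : ℕ) (G : Type) [Group G]
  [TopologicalSpace G] [IsTopologicalGroup G] [CompactSpace G]
  (ρ : G →* Matrix (Fin N) (Fin N) ℚ_[ℓ]) (U : Subgroup G), IsOpen (U : Set G) →
  ∀ D f : ℕ, 0 < D → 0 < f →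
  (∀ W : Submodule ℚ_[ℓ] (Fin N → ℚ_[ℓ]), (∀ σ ∈ U, ∀ w ∈ W, ρ σ *ᵥ w ∈ W) →
    D ∣ Module.finrank ℚ_[ℓ] W) →
  ∀ σ : G, (ρ σ).charpoly.Separable → DistPow ℓ (ρ σ).charpoly →
  (∀ R : ℚ_[ℓ][X], R.Monic → R ∣ (ρ σ).charpoly → R ≠ 1 → D ∣ R.natDegree →
    ∃ R₁ : ℚ_[ℓ][X], Irreducible R₁ ∧ R₁ ∣ R ∧ R₁.natDegree ≤ f) →
  D * Module.finrank ℚ_[ℓ] (Comm ρ U) ≤ N * f ∧
  (D * Module.finrank ℚ_[ℓ] (Comm ρ U) = N * f →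
    ∀ W : Submodule ℚ_[ℓ] (Fin N → ℚ_[ℓ]), (∀ σ ∈ U, ∀ w ∈ W, ρ σ *ᵥ w ∈ W) →
    ∃ W' : Submodule ℚ_[ℓ] (Fin N → ℚ_[ℓ]), (∀ σ ∈ U, ∀ w ∈ W', ρ σ *ᵥ w ∈ W') ∧ IsCompl W W')

end Pool.Agent.Y142.SI
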