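import Pool.Agent.Y142.SI.Core
import Pool.Agent.Y142.SI.Stm
import Pool.Agent.Y297.SS.CF
import Pool.Agent.Y708.SS.Loc

/-!
# Project SI: the classes for a field of coefficients
-/

set_option autoImplicit false
set_option linter.style.haveILetI false
set_option linter.unusedSectionVars false

open Matrix Polynomial Filter Topology NumberField IsDedekindDomain
open Pool.Agent.Y142.ZO Pool.Agent.Y142.ZI
open Pool.Agent.Y142.ZS (NiceP restrict0 nice_of_p push_C)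
open Pool.Agent.Y142.ZD (DistPow dist_of_nice S_ABS S_BADD S_SUB)
open Pool.Agent.Y142.SS

namespace Pool.Agent.Y142.SI

/-! ### Frobenius elements at a prime are conjugate on a finite extension -/

theorem frob_conj_Q (Q : ℚ[X]) (hQm : Q.Monic) (hQs : Q.Separable) :
    ∃ b : ℕ, ∀ ℓ : ℕ, b < ℓ → ℓ.Prime → ∀ σ σ' : GK ℚ, FrobAt ℓ σ → FrobAt ℓ σ' →
      ∃ r : GK ℚ, ∀ x : QQ, aeval x Q = 0 → σ' x = (r * σ * r⁻¹) x := by
  obtain ⟨D, hD0, P, hPm, hP⟩ := Pool.Agent.Y971.ZI.exists_scale Q hQm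
  have hDQ : (D : ℚ) ≠ 0 := by exact_mod_cast hD0.ne'
  have hDQQ : (D : QQ) ≠ 0 := by exact_mod_cast hD0.ne'
  have hPsep : (P.map (Int.castRingHom ℚ)).Separable := by
    rw [hP, separable_def, Pool.Agent.Y971.ZI.derivative_scale Q _]
    exact isCoprime_scaleRoots _ _ _ (isUnit_iff_ne_zero.mpr hDQ) hQs
  obtain ⟨N, hN0, a, b, hab⟩ := Pool.Agent.Y971.ZI.sep_bound P hPsep
  refine ⟨N.natAbs, ?_⟩
  intro ℓ hℓ hℓp σ σ' hF hF'
  have key' : ∀ x : QQ, aeval x Q = 0 → ∃ w : 𝓞 QQ, (w : QQ) = D * x ∧ aeval (w : QQ) P = 0 := by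
    intro x hx
    have h3 := scaleRoots_eval₂_mul (p := Q) (algebraMap ℚ QQ) x (D : ℚ)
    rw [← hP, map_natCast, eval₂_map] at h3
    have h5 : eval₂ (algebraMap ℚ QQ) x Q = 0 := hx
    rw [h5, mul_zero] at h3
    have h4 : aeval ((D : QQ) * x) P = 0 := by
      rw [RingHom.ext_int ((algebraMap ℚ QQ).comp (Int.castRingHom ℚ)) (algebraMap ℤ QQ)] at h3
      exact h3
    exact ⟨⟨(D : QQ) * x, P, hPm, h4⟩, rfl, h4⟩
  obtain ⟨r, i, hi, hσ⟩ := Pool.Agent.W401.Frob.conj_frob (Pool.Agent.Y726.ZI.pv ℓ hℓp) σ σ'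
    ((Pool.Agent.Y726.ZI.frobAt_iff hℓp σ).1 hF) ((Pool.Agent.Y726.ZI.frobAt_iff hℓp σ').1 hF')
  refine ⟨r, fun x hx => ?_⟩
  obtain ⟨w, hwx, hw⟩ := key' x hx
  obtain ⟨𝔮, h𝔮, h𝔮v, hi'⟩ := hi
  have hℓq : (ℓ : 𝓞 QQ) ∈ 𝔮 := by
    have h1 : (ℓ : 𝓞 ℚ) ∈ (Pool.Agent.Y726.ZI.pv ℓ hℓp).asIdeal :=
      Ideal.mem_span_singleton_self _
    rw [← h𝔮v, Ideal.mem_comap, map_natCast] at h1
    exact h1
  have hwP : aeval w P = 0 := by
    apply RingOfIntegers.coe_injective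
    rw [map_zero, ← hw]
    exact (aeval_algebraMap_apply QQ w P).symm
  have h1 := Pool.Agent.Y297.SS.inert_fix hab hN0 hℓp hℓ i 𝔮 h𝔮.isPrime hℓq hi' w hwP
  have h2 : i (w : QQ) = (w : QQ) := congrArg (fun z : 𝓞 QQ => (z : QQ)) h1
  rw [hwx, map_mul, map_natCast] at h2
  have h3 : i x = x := mul_left_cancel₀ hDQQ h2
  rw [hσ, AlgEquiv.mul_apply (r * σ * r⁻¹) i x, h3]

theorem frob_conj_E (E : IntermediateField ℚ QQ) (hE : FiniteDimensional ℚ E) :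
    ∃ b : ℕ, ∀ ℓ : ℕ, b < ℓ → ℓ.Prime → ∀ σ σ' : GK ℚ, FrobAt ℓ σ → FrobAt ℓ σ' →
      ∃ r : GK ℚ, ∀ x ∈ E, σ' x = (r * σ * r⁻¹) x := by
  obtain ⟨α, hα, hint⟩ := Pool.Agent.Y484.ZI.prim E
  have hirr := minpoly.irreducible hint
  have hQ0 : minpoly ℚ α ≠ 0 := minpoly.ne_zero hint
  have hML : E ≤ Lf (minpoly ℚ α) := by
    rw [hα, IntermediateField.adjoin_le_iff, Set.singleton_subset_iff]
    exact mem_Lf hQ0 (minpoly.aeval ℚ α)
  obtain ⟨b1, hb1⟩ := frob_conj_Q (minpoly ℚ α) (minpoly.monic hint) hirr.separable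
  refine ⟨b1, fun ℓ hℓ hp σ σ' h h' => ?_⟩
  obtain ⟨r, hr⟩ := hb1 ℓ hℓ hp σ σ' h h'
  exact ⟨r, fun x hx => Pool.Agent.Y708.SS.Loc.eq_on_Lf hQ0 _ _ hr (hML hx)⟩

/-! ### the order of an automorphism on `E` -/

/-- the order of `g` on `E` -/
noncomputable def ordE (E : IntermediateField ℚ QQ) (g : GK ℚ) : ℕ :=
  sInf {k : ℕ | 0 < k ∧ ∀ a ∈ E, (g ^ k) a = a}

theorem ordE_spec (E : IntermediateField ℚ QQ) (hE : FiniteDimensional ℚ E) (g : GK ℚ) :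
    0 < ordE E g ∧ ∀ a ∈ E, (g ^ ordE E g) a = a := by
  have hne : {k : ℕ | 0 < k ∧ ∀ a ∈ E, (g ^ k) a = a}.Nonempty := by
    have : Finite (GK ℚ ⧸ fixSub E) := Subgroup.quotient_finite_of_isOpen _ (fixSub_open E hE)
    have hidx : (fixSub E).index ≠ 0 := Subgroup.index_ne_zero_of_finite
    obtain ⟨n, hn, _, hmem⟩ := Subgroup.exists_pow_mem_of_index_ne_zero hidx g
    exact ⟨n, hn, mem_fixSub.1 hmem⟩
  exact Nat.sInf_mem hne

theorem stable_normal {E : IntermediateField ℚ QQ} (hE : Normal ℚ E) (g : GK ℚ) {x : QQ}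
    (hx : x ∈ E) : g x ∈ E := by
  haveI := normalQQ
  have h2 := (IntermediateField.normal_iff_forall_map_eq' (F := ℚ) (L := QQ) (K := E)).1
    hE (conv g)
  rw [← h2]
  exact ⟨x, hx, rfl⟩

theorem ordE_conj {E : IntermediateField ℚ QQ} (hE : Normal ℚ E) (g h : GK ℚ) :
    ordE E (h * g * h⁻¹) = ordE E g := by
  unfold ordE
  congr 1
  ext k
  constructor
  · rintro ⟨hk, h1⟩
    refine ⟨hk, fun a ha => ?_⟩
    have h2 := h1 (h a) (stable_normal hE h ha)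
    rw [conj_pow, AlgEquiv.mul_apply, AlgEquiv.mul_apply, ← AlgEquiv.mul_apply h⁻¹,
      inv_mul_cancel, AlgEquiv.one_apply] at h2
    exact h.injective h2
  · rintro ⟨hk, h1⟩
    refine ⟨hk, fun a ha => ?_⟩
    rw [conj_pow, AlgEquiv.mul_apply, AlgEquiv.mul_apply, h1 _ (stable_normal hE h⁻¹ ha),
      ← AlgEquiv.mul_apply, mul_inv_cancel, AlgEquiv.one_apply]

theorem ordE_congr {E : IntermediateField ℚ QQ} (hE : Normal ℚ E) {g g' : GK ℚ}
    (h : ∀ a ∈ E, g a = g' a) : ordE E g = ordE E g' := by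
  have h1 : ∀ (k : ℕ), ∀ a ∈ E, (g ^ k) a = (g' ^ k) a := by
    intro k
    induction k with
    | zero => intro a _; rfl
    | succ k ih =>
      intro a ha
      rw [pow_succ, pow_succ, AlgEquiv.mul_apply, AlgEquiv.mul_apply, h a ha,
        ih _ (stable_normal hE g' ha)]
  unfold ordE
  congr 1
  ext k
  constructor
  · rintro ⟨hk, h2⟩
    exact ⟨hk, fun a ha => by rw [← h1 k a ha, h2 a ha]⟩
  · rintro ⟨hk, h2⟩
    exact ⟨hk, fun a ha => by rw [h1 k a ha, h2 a ha]⟩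

/-! ### the classes -/

/-- the polynomials whose splitting field contains `E` -/
def GdE (E : IntermediateField ℚ QQ) : Set ℚ[X] := {Q | ∀ t ∈ Fix Q, ∀ a ∈ E, t a = a}

/-- first class -/
def Cl1 (E : IntermediateField ℚ QQ) (n d : ℕ) (Q : ℚ[X]) : Set (GK ℚ) :=
  {g | n * ordE E g ∣ d ∨ g ∈ NoSet d Q}

/-- second class -/
def Cl2 (E : IntermediateField ℚ QQ) (n : ℕ) (Q : ℚ[X]) : Set (GK ℚ) :=
  {g | ∀ T : Set QQ, (∀ x ∈ T, aeval x Q = 0) → T.Nonempty → (∀ x ∈ T, g x ∈ T) →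
    n * ordE E g ∣ T.ncard → ∃ x ∈ T, (g ^ ordE E g) x = x}

theorem isClass1 {E : IntermediateField ℚ QQ} (hE : Normal ℚ E) (n d : ℕ) :
    IsClass (GdE E) (Cl1 E n d) where
  conj Q g h := by
    rintro (h1 | h1)
    · left
      rwa [ordE_conj hE]
    · exact Or.inr (noSet_conj h1 h)
  mul Q hQ g t := by
    rintro (h1 | h1) ht
    · left
      rwa [ordE_congr hE (g := g * t) (g' := g) fun a ha => by rw [AlgEquiv.mul_apply, hQ t ht a ha]]
    · exact Or.inr (noSet_mul h1 ht)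
  trans Q₁ Q₂ σ h := by
    rintro (h1 | h1)
    · exact Or.inl h1
    · exact Or.inr (noSet_trans h h1)

theorem isClass2 {E : IntermediateField ℚ QQ} (hE : Normal ℚ E) (n : ℕ) :
    IsClass (GdE E) (Cl2 E n) where
  conj Q g h hg := by
    intro T hT hne hTs hd
    rw [ordE_conj hE] at hd ⊢
    obtain ⟨y, ⟨x, hx, rfl⟩, hy2⟩ := hg ((fun x : QQ => h⁻¹ x) '' T) (by
      rintro _ ⟨y, hy, rfl⟩
      exact aeval_aut _ (hT y hy)) (hne.image _) (by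
      rintro _ ⟨y, hy, rfl⟩
      refine ⟨(h * g * h⁻¹) y, hTs y hy, ?_⟩
      show h⁻¹ ((h * g * h⁻¹) y) = g (h⁻¹ y)
      rw [← AlgEquiv.mul_apply, ← AlgEquiv.mul_apply]
      congr 1
      group) (by rwa [Set.ncard_image_of_injective _ (AlgEquiv.injective _)])
    refine ⟨x, hx, ?_⟩
    have h3 : (g ^ ordE E g) (h⁻¹ x) = h⁻¹ x := hy2
    rw [conj_pow, AlgEquiv.mul_apply, AlgEquiv.mul_apply, h3, ← AlgEquiv.mul_apply,
      mul_inv_cancel, AlgEquiv.one_apply]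
  mul Q hQ g t hg ht := by
    have hord : ordE E (g * t) = ordE E g :=
      ordE_congr hE fun a ha => by rw [AlgEquiv.mul_apply, hQ t ht a ha]
    intro T hT hne hTs hd
    rw [hord] at hd ⊢
    have hst : ∀ x ∈ T, g x ∈ T := fun x hx => by
      have h1 := hTs x hx
      rwa [AlgEquiv.mul_apply, ht x (hT x hx)] at h1
    obtain ⟨x, hx, hx2⟩ := hg T hT hne hst hd
    refine ⟨x, hx, ?_⟩
    have h2 : ∀ (k : ℕ), ∀ y : QQ, aeval y Q = 0 → ((g * t) ^ k) y = (g ^ k) y := by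
      intro k
      induction k with
      | zero => intro y _; rfl
      | succ k ih =>
        intro y hy
        rw [pow_succ, pow_succ, AlgEquiv.mul_apply, AlgEquiv.mul_apply, AlgEquiv.mul_apply,
          ht y hy, ih _ (aeval_aut g hy)]
    rw [h2 _ x (hT x hx), hx2]
  trans Q₁ Q₂ σ h hg := by
    obtain ⟨ψ, h1, h2, h3, h4⟩ := h
    intro T hT hne hTs hd
    obtain ⟨y, hy⟩ := hne
    obtain ⟨x₀, hx₀, rfl⟩ := h3 y (hT y hy)
    obtain ⟨x, hx, hx2⟩ := hg (pull Q₁ ψ T) (fun x hx => hx.1) ⟨x₀, hx₀, hy⟩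
      (fun x hx => ⟨aeval_aut _ hx.1, by rw [h4 x hx.1]; exact hTs _ hx.2⟩)
      (by rwa [ncard_pull h2 h3 hT])
    refine ⟨ψ x, hx.2, ?_⟩
    have h5 : ∀ (k : ℕ), ∀ y : QQ, aeval y Q₁ = 0 → (σ ^ k) (ψ y) = ψ ((σ ^ k) y) := by
      intro k
      induction k with
      | zero => intro y _; rfl
      | succ k ih =>
        intro y hy
        rw [pow_succ, AlgEquiv.mul_apply, AlgEquiv.mul_apply, ← h4 y hy, ih _ (aeval_aut σ hy)]
    rw [h5 _ x hx.1, hx2]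

end Pool.Agent.Y142.SI
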