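import Pool.Agent.Y142.SS.Fin

/-!
# Project SI: classes of Frobenius elements and irreducibility
-/

set_option autoImplicit false
set_option linter.style.haveILetI false
set_option linter.unusedSectionVars false

open Matrix Polynomial Filter Topology NumberField IsDedekindDomain
open Pool.Agent.Y142.ZO Pool.Agent.Y142.ZI
open Pool.Agent.Y142.ZS (NiceP restrict0 nice_of_p push_C)
open Pool.Agent.Y142.ZD (DistPow dist_of_nice S_ABS S_BADD S_SUB)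
open Pool.Agent.Y142.SS

namespace Pool.Agent.Y142.SI

section
variable {K : Type} [Field K] [NumberField K] {N : ℕ} {S : Set (HeightOneSpectrum (𝓞 K))}
  {P : HeightOneSpectrum (𝓞 K) → ℚ[X]}

/-- new places whose splitting fields are as independent as possible, with additional classes -/
theorem key3 (hLOC : S_LOC) (hLOGR : S_LOGR) (hKRS : S_KRS) (hCHARA : S_CHARA)
    (hMULTI : S_MULTI) (hFROB : S_FROB) (hINT : S_INT) (hN : 0 < N) (hS : S.Finite)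
    (ρ : ∀ (ℓ : ℕ) [Fact ℓ.Prime], GK K →* Matrix (Fin N) (Fin N) ℚ_[ℓ])
    (hsys : ∀ (ℓ : ℕ) [Fact ℓ.Prime], Sys K N ℓ (ρ ℓ) S P)
    {m : ℕ} (u : Fin (m + 1) → HeightOneSpectrum (𝓞 K)) (hu : ∀ i, NiceP S P (u i))
    (J : Type) [Finite J] (uJ : J → HeightOneSpectrum (𝓞 K)) (huJ : ∀ j, NiceP S P (uJ j))
    (w : J → GK ℚ)
    (M : IntermediateField ℚ QQ) (hM : FiniteDimensional ℚ M) :
    ∃ (v : HeightOneSpectrum (𝓞 K)) (Q : ℚ[X]), NiceP S P v ∧ M ≤ Lf Q ∧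
      (∀ a ∈ Subgroup.closure (⋃ i, Fix (P (u i))), ∃ s ∈ Fix (P v), ∀ x ∈ Lf Q, s x = a x) ∧
      ∀ j, ∃ σ : GK ℚ, (∀ x ∈ Lf Q, σ x = w j x) ∧
        (∀ x : QQ, aeval x (P (uJ j)) = 0 → σ x = w j x) ∧ RootTrans (P (uJ j)) (P v) σ := by
  classical
  obtain ⟨f, hf, hMf, -⟩ := hINT M hM
  set Q : ℚ[X] := f.map (Int.castRingHom ℚ) with hQ
  have hQ0 : Q ≠ 0 := (hf.map _).ne_zero
  have hMQ : M ≤ Lf Q := by
    refine hMf.trans ?_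
    rw [IntermediateField.adjoin_le_iff]
    intro x hx
    refine mem_Lf hQ0 ?_
    rw [hQ, show (Int.castRingHom ℚ) = algebraMap ℤ ℚ from rfl, aeval_map_algebraMap]
    exact hx
  have hfin : FiniteDimensional ℚ (Lf Q) := Lf_finite Q
  haveI : Finite (GK ℚ ⧸ fixSub (Lf Q)) :=
    Subgroup.quotient_finite_of_isOpen _ (fixSub_open _ hfin)
  let I : Type := {c : GK ℚ ⧸ fixSub (Lf Q) // ∃ i, ∃ a ∈ Fix (P (u i)),
    (QuotientGroup.mk a : GK ℚ ⧸ fixSub (Lf Q)) = c}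
  haveI : Finite I := Subtype.finite
  haveI : Nonempty I := ⟨⟨QuotientGroup.mk 1, 0, 1, fun x _ => rfl, rfl⟩⟩
  have hI : ∀ c : I, ∃ i, ∃ a ∈ Fix (P (u i)), (QuotientGroup.mk a : GK ℚ ⧸ fixSub (Lf Q)) = c.1 :=
    fun c => c.2
  choose idx el hel1 hel2 using hI
  obtain ⟨v, hv, hσ⟩ := key hLOC hLOGR hKRS hCHARA hMULTI hFROB hN hS ρ hsys (I ⊕ J)
    (Sum.elim (fun c => u (idx c)) uJ) (by rintro (c | j); exacts [hu _, huJ j])
    (Sum.elim el w) (Lf Q) hfin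
  refine ⟨v, Q, hv, hMQ, fun a ha => ?_, fun j => ?_⟩
  · refine Subgroup.closure_induction (p := fun a _ => ∃ s ∈ Fix (P v), ∀ x ∈ Lf Q, s x = a x)
      ?_ ?_ ?_ ?_ ha
    · intro a ha
      obtain ⟨i, hi⟩ := Set.mem_iUnion.1 ha
      let c : I := ⟨QuotientGroup.mk a, i, a, hi, rfl⟩
      obtain ⟨σ, h1, h2, h3⟩ := hσ (Sum.inl c)
      simp only [Sum.elim_inl] at h1 h2 h3
      refine ⟨σ, fix_of_trans h3 fun x hx => (h2 x hx).trans (hel1 c x hx), fun x hx => ?_⟩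
      rw [h1 x hx]
      have h4 : (QuotientGroup.mk (el c) : GK ℚ ⧸ fixSub (Lf Q)) = QuotientGroup.mk a := hel2 c
      rw [eq_comm, QuotientGroup.eq] at h4
      have h5 := mem_fixSub.1 h4 x hx
      have h6 := congrArg a h5
      rw [← AlgEquiv.mul_apply, mul_inv_cancel_left] at h6
      exact h6
    · exact ⟨1, fun x _ => rfl, fun x _ => rfl⟩
    · rintro a b - - ⟨s, hs, hsa⟩ ⟨t, ht, htb⟩
      refine ⟨s * t, fun x hx => ?_, fun x hx => ?_⟩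
      · rw [AlgEquiv.mul_apply, ht x hx, hs x hx]
      · rw [AlgEquiv.mul_apply, AlgEquiv.mul_apply, htb x hx, hsa _ (stable_Lf Q b hx)]
    · rintro a - ⟨s, hs, hsa⟩
      refine ⟨s⁻¹, fun x hx => ?_, fun x hx => ?_⟩
      · have h1 := congrArg (s⁻¹ : GK ℚ) (hs x hx)
        rw [← AlgEquiv.mul_apply, inv_mul_cancel, AlgEquiv.one_apply] at h1
        exact h1.symm
      · have h1 := hsa (a⁻¹ x) (stable_Lf Q a⁻¹ hx)
        rw [← AlgEquiv.mul_apply a, mul_inv_cancel, AlgEquiv.one_apply] at h1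
        have h2 := congrArg (s⁻¹ : GK ℚ) h1
        rw [← AlgEquiv.mul_apply, inv_mul_cancel, AlgEquiv.one_apply] at h2
        exact h2.symm
  · exact hσ (Sum.inr j)

/-- a class of pairs `(g, Q)` which depends only on the action of `g` on the roots of `Q`
(for the polynomials in `Gd`) -/
structure IsClass (Gd : Set ℚ[X]) (Φ : ℚ[X] → Set (GK ℚ)) : Prop where
  conj : ∀ (Q : ℚ[X]) (g h : GK ℚ), g ∈ Φ Q → h * g * h⁻¹ ∈ Φ Q
  mul : ∀ Q ∈ Gd, ∀ (g t : GK ℚ), g ∈ Φ Q → t ∈ Fix Q → g * t ∈ Φ Q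
  trans : ∀ (Q₁ Q₂ : ℚ[X]) (σ : GK ℚ), RootTrans Q₁ Q₂ σ → σ ∈ Φ Q₁ → σ ∈ Φ Q₂

theorem densityPhi (hLOC : S_LOC) (hLOGR : S_LOGR) (hKRS : S_KRS) (hCHARA : S_CHARA)
    (hMULTI : S_MULTI) (hFROB : S_FROB) (hINT : S_INT) (hDENS2 : S_DENS2) (hN : 0 < N)
    (hS : S.Finite)
    (ρ : ∀ (ℓ : ℕ) [Fact ℓ.Prime], GK K →* Matrix (Fin N) (Fin N) ℚ_[ℓ])
    (hsys : ∀ (ℓ : ℕ) [Fact ℓ.Prime], Sys K N ℓ (ρ ℓ) S P)
    {m : ℕ} (u : Fin (m + 1) → HeightOneSpectrum (𝓞 K)) (hu : ∀ i, NiceP S P (u i))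
    {Gd : Set ℚ[X]} (hGd : ∀ v, NiceP S P v → P v ∈ Gd) {Φ : ℚ[X] → Set (GK ℚ)}
    (hΦ : IsClass Gd Φ)
    (hex : ∀ g : GK ℚ, ∃ v, NiceP S P v ∧ ∃ w ∈ Φ (P v),
      w⁻¹ * g ∈ Subgroup.closure (⋃ i, Fix (P (u i))))
    (Bad : Set ℕ) (hBad : ∀ ℓ ∈ Bad, ℓ.Prime)
    (hbad : ∀ v, NiceP S P v → ∃ b : ℕ, ∀ ℓ ∈ Bad, b < ℓ → ∀ σ, FrobAt ℓ σ → σ ∉ Φ (P v)) :
    ZI.DensityZero Bad := by
  classical
  set A : Subgroup (GK ℚ) := Subgroup.closure (⋃ i, Fix (P (u i))) with hA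
  have hopen : IsOpen (A : Set (GK ℚ)) := by
    refine Subgroup.isOpen_mono (H₁ := fixSub (Lf (P (u 0)))) (fun t ht => ?_)
      (fixSub_open _ (Lf_finite _))
    exact Subgroup.subset_closure (Set.mem_iUnion.2 ⟨0, fun x hx =>
      mem_fixSub.1 ht x (mem_Lf (hu 0).2.1.ne_zero hx)⟩)
  haveI : Finite (GK ℚ ⧸ A) := Subgroup.quotient_finite_of_isOpen _ hopen
  choose v₀ hv₀ w₀ hw₀ hwA using hex
  refine hDENS2 Bad N.factorial hBad fun M hM => ?_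
  obtain ⟨v, Q, hv, hMQ, hfix, hcl⟩ := key3 hLOC hLOGR hKRS hCHARA hMULTI hFROB hINT hN hS
    ρ hsys u hu (GK ℚ ⧸ A) (fun c => v₀ (Quotient.out c)) (fun c => hv₀ _)
    (fun c => w₀ (Quotient.out c)) M hM
  obtain ⟨b, hb⟩ := hbad v hv
  have hdeg := (monic_of_sysA ρ hsys hv.1).2
  refine ⟨Lf (P v), Φ (P v), Lf_finite _, Lf_normal _, ?_, fun g hg h => hΦ.conj _ g h hg,
    fun g hg t ht => hΦ.mul _ (hGd v hv) g t hg fun x hx => ht x (mem_Lf hv.2.1.ne_zero hx), ?_, b,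
    fun ℓ hℓ hbℓ σ hσ => hb ℓ hℓ hbℓ σ hσ⟩
  · have h1 := Lf_finrank hv.2.2.1
    rwa [hdeg] at h1
  · intro g
    set c : GK ℚ ⧸ A := QuotientGroup.mk g with hc
    obtain ⟨σ, h1, h2, h3⟩ := hcl c
    -- `w⁻¹ g ∈ A`
    have h4 : (w₀ (Quotient.out c))⁻¹ * g ∈ A := by
      have h5 : (Quotient.out c)⁻¹ * g ∈ A := by
        rw [← QuotientGroup.eq, ← hc]
        exact QuotientGroup.out_eq' c
      have h6 := A.mul_mem (hwA (Quotient.out c)) h5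
      have e : (w₀ (Quotient.out c))⁻¹ * Quotient.out c * ((Quotient.out c)⁻¹ * g) =
          (w₀ (Quotient.out c))⁻¹ * g := by group
      rwa [e] at h6
    obtain ⟨s, hs, hsa⟩ := hfix _ h4
    refine ⟨g⁻¹ * (σ * s), fun x hx => ?_, ?_⟩
    · rw [AlgEquiv.mul_apply, AlgEquiv.mul_apply, hsa x (hMQ hx), h1 _ (stable_Lf Q _ (hMQ hx)),
        ← AlgEquiv.mul_apply (w₀ (Quotient.out c)), mul_inv_cancel_left, ← AlgEquiv.mul_apply,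
        inv_mul_cancel, AlgEquiv.one_apply]
    · rw [mul_inv_cancel_left]
      refine hΦ.mul _ (hGd v hv) _ _ (hΦ.trans _ _ _ h3 ?_) hs
      have e : σ = w₀ (Quotient.out c) * ((w₀ (Quotient.out c))⁻¹ * σ) := by group
      rw [e]
      refine hΦ.mul _ (hGd _ (hv₀ _)) _ _ (hw₀ _) fun x hx => ?_
      rw [AlgEquiv.mul_apply, h2 x hx, ← AlgEquiv.mul_apply, inv_mul_cancel, AlgEquiv.one_apply]

end

/-! ### the class of elements without stable sets of `d` roots -/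

/-- no stable set of `d` roots -/
def NoSet (d : ℕ) (Q : ℚ[X]) : Set (GK ℚ) :=
  {g | ∀ T : Set QQ, (∀ x ∈ T, aeval x Q = 0) → (∀ x ∈ T, g x ∈ T) → T.ncard ≠ d}

theorem noSet_conj {d : ℕ} {Q : ℚ[X]} {g : GK ℚ} (hg : g ∈ NoSet d Q) (h : GK ℚ) :
    h * g * h⁻¹ ∈ NoSet d Q := by
  intro T hT hTs hd
  refine hg ((fun x : QQ => h⁻¹ x) '' T) ?_ ?_ ?_
  · rintro _ ⟨y, hy, rfl⟩
    exact aeval_aut _ (hT y hy)
  · rintro _ ⟨y, hy, rfl⟩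
    refine ⟨(h * g * h⁻¹) y, hTs y hy, ?_⟩
    show h⁻¹ ((h * g * h⁻¹) y) = g (h⁻¹ y)
    rw [← AlgEquiv.mul_apply, ← AlgEquiv.mul_apply]
    congr 1
    group
  · rw [Set.ncard_image_of_injective _ (AlgEquiv.injective _)]
    exact hd

theorem noSet_mul {d : ℕ} {Q : ℚ[X]} {g : GK ℚ} (hg : g ∈ NoSet d Q) {t : GK ℚ}
    (ht : t ∈ Fix Q) : g * t ∈ NoSet d Q := by
  intro T hT hTs
  refine hg T hT fun x hx => ?_
  have h1 := hTs x hx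
  rwa [AlgEquiv.mul_apply, ht x (hT x hx)] at h1

/-- the set of roots which corresponds to `T` -/
def pull (Q₁ : ℚ[X]) (ψ : QQ → QQ) (T : Set QQ) : Set QQ := {x : QQ | aeval x Q₁ = 0 ∧ ψ x ∈ T}

theorem ncard_pull {Q₁ Q₂ : ℚ[X]} {ψ : QQ → QQ}
    (h2 : ∀ x y, aeval x Q₁ = 0 → aeval y Q₁ = 0 → ψ x = ψ y → x = y)
    (h3 : ∀ y, aeval y Q₂ = 0 → ∃ x, aeval x Q₁ = 0 ∧ ψ x = y)
    {T : Set QQ} (hT : ∀ x ∈ T, aeval x Q₂ = 0) : (pull Q₁ ψ T).ncard = T.ncard := by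
  have h5 : ψ '' pull Q₁ ψ T = T := by
    ext y
    constructor
    · rintro ⟨x, hx, rfl⟩
      exact hx.2
    · intro hy
      obtain ⟨x, hx, rfl⟩ := h3 y (hT y hy)
      exact ⟨x, ⟨hx, hy⟩, rfl⟩
  conv_rhs => rw [← h5]
  exact (Set.InjOn.ncard_image fun x hx y hy hxy => h2 x y hx.1 hy.1 hxy).symm

theorem noSet_trans {d : ℕ} {Q₁ Q₂ : ℚ[X]} {σ : GK ℚ} (h : RootTrans Q₁ Q₂ σ)
    (hg : σ ∈ NoSet d Q₁) : σ ∈ NoSet d Q₂ := by
  obtain ⟨ψ, h1, h2, h3, h4⟩ := h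
  intro T hT hTs hd
  refine hg (pull Q₁ ψ T) (fun x hx => hx.1) (fun x hx => ⟨aeval_aut _ hx.1, ?_⟩) ?_
  · rw [h4 x hx.1]
    exact hTs _ hx.2
  · rw [ncard_pull h2 h3 hT, hd]

end Pool.Agent.Y142.SI
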