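import Pool.Agent.Y142.SI.Coef
import Pool.Agent.Y681.ZI.Dens

/-!
# Project SI: the final theorem
-/

set_option autoImplicit false
set_option linter.style.haveILetI false
set_option linter.unusedSectionVars false

open Matrix Polynomial Filter Topology NumberField IsDedekindDomain
open Pool.Agent.Y142.ZO Pool.Agent.Y142.ZI
open Pool.Agent.Y142.ZS (NiceP restrict0 nice_of_p push_C)
open Pool.Agent.Y142.ZD (DistPow dist_of_nice S_ABS S_BADD S_SUB)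
open Pool.Agent.Y142.SS

namespace Pool.Agent.Y142.SI

/-! ### the order divides the degree -/

theorem ordE_dvd {E : IntermediateField ℚ QQ} (hfin : FiniteDimensional ℚ E) (hE : Normal ℚ E)
    (g : GK ℚ) : ordE E g ∣ Module.finrank ℚ E := by
  haveI := normalQQ
  haveI := hfin
  haveI := hE
  haveI : IsGalois ℚ E := { to_isSeparable := inferInstance, to_normal := hE }
  let r : E ≃ₐ[ℚ] E := AlgEquiv.restrictNormal (conv g) E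
  have hr : ∀ (k : ℕ) (a : E), (((r ^ k) a : E) : QQ) = (g ^ k) (a : QQ) := by
    intro k
    induction k with
    | zero => intro a; rfl
    | succ k ih =>
      intro a
      rw [pow_succ, pow_succ, AlgEquiv.mul_apply, AlgEquiv.mul_apply, ih]
      congr 1
      exact AlgEquiv.restrictNormal_commutes (conv g) E a
  have h1 : orderOf r ∣ Module.finrank ℚ E := by
    rw [← IsGalois.card_aut_eq_finrank]
    exact orderOf_dvd_natCard r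
  have h2 : orderOf r = ordE E g := by
    obtain ⟨h3, h4⟩ := ordE_spec E hfin g
    apply le_antisymm
    · apply orderOf_le_of_pow_eq_one h3
      ext a
      rw [AlgEquiv.one_apply, hr, h4 _ a.2]
    · apply Nat.sInf_le
      refine ⟨orderOf_pos r, fun a ha => ?_⟩
      have h5 := hr (orderOf r) ⟨a, ha⟩
      rw [pow_orderOf_eq_one, AlgEquiv.one_apply] at h5
      exact h5.symm
  rwa [h2] at h1

/-! ### roots over `ℚ_ℓ` -/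

theorem ncard_roots {ℓ : ℕ} [Fact ℓ.Prime] (ι : QQ →+* AlgebraicClosure ℚ_[ℓ]) {Q : ℚ[X]}
    (hQm : Q.Monic) (hQs : Q.Separable) {R : ℚ_[ℓ][X]} (hR : R ∣ Q.map (algebraMap ℚ ℚ_[ℓ])) :
    {x : QQ | aeval x Q = 0 ∧ aeval (ι x) R = 0}.ncard = R.natDegree := by
  have hRs : R.Separable := (hQs.map (f := algebraMap ℚ ℚ_[ℓ])).of_dvd hR
  have hR0 : R ≠ 0 := hRs.ne_zero
  have h1 : ι '' {x : QQ | aeval x Q = 0 ∧ aeval (ι x) R = 0} = R.rootSet (AlgebraicClosure ℚ_[ℓ]) := by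
    ext y
    rw [mem_rootSet_of_ne hR0]
    constructor
    · rintro ⟨x, hx, rfl⟩
      exact hx.2
    · intro hy
      have hy' : aeval y (Q.map (algebraMap ℚ ℚ_[ℓ])) = 0 := by
        obtain ⟨R', hR'⟩ := hR
        rw [hR', map_mul, hy, zero_mul]
      obtain ⟨x, hx, rfl⟩ := lift_root ℓ ι hQm.ne_zero hy'
      exact ⟨x, ⟨hx, hy⟩, rfl⟩
  rw [← Set.ncard_image_of_injective _ ι.injective, h1, ← Nat.card_coe_set_eq,
    Nat.card_eq_fintype_card]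
  exact card_rootSet_eq_natDegree hRs (IsAlgClosed.splits _)

/-- from the second class to factors over `ℚ_ℓ` -/
theorem factor_of_cl2 {ℓ : ℕ} [Fact ℓ.Prime] (ι : QQ →+* AlgebraicClosure ℚ_[ℓ]) {Q : ℚ[X]}
    (hQm : Q.Monic) (hQs : Q.Separable) {σ : GK ℚ} {f n : ℕ} (hf : 0 < f)
    (h1 : ∀ R : ℚ_[ℓ][X], R ∣ Q.map (algebraMap ℚ ℚ_[ℓ]) →
        ∀ x : QQ, aeval x Q = 0 → aeval (ι x) R = 0 → aeval (ι (σ x)) R = 0)
    (h2 : ∀ T : Set QQ, (∀ x ∈ T, aeval x Q = 0) → (∀ x ∈ T, σ x ∈ T) →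
        ∃ R : ℚ_[ℓ][X], R.Monic ∧ R ∣ Q.map (algebraMap ℚ ℚ_[ℓ]) ∧ R.natDegree = T.ncard ∧
          ∀ x : QQ, aeval x Q = 0 → (aeval (ι x) R = 0 ↔ x ∈ T))
    (hcl : ∀ T : Set QQ, (∀ x ∈ T, aeval x Q = 0) → T.Nonempty → (∀ x ∈ T, σ x ∈ T) →
      n * f ∣ T.ncard → ∃ x ∈ T, (σ ^ f) x = x)
    (R : ℚ_[ℓ][X]) (hRm : R.Monic) (hR : R ∣ Q.map (algebraMap ℚ ℚ_[ℓ])) (hR1 : R ≠ 1)
    (hd : n * f ∣ R.natDegree) :
    ∃ R₁ : ℚ_[ℓ][X], Irreducible R₁ ∧ R₁ ∣ R ∧ R₁.natDegree ≤ f := by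
  classical
  have hcard := ncard_roots ι hQm hQs hR
  have hpos : 0 < R.natDegree := by
    rcases Nat.eq_zero_or_pos R.natDegree with h | h
    · exact absurd (hRm.natDegree_eq_zero.1 h) hR1
    · exact h
  obtain ⟨x, hx, hfx⟩ := hcl {x : QQ | aeval x Q = 0 ∧ aeval (ι x) R = 0} (fun x hx => hx.1)
    (Set.nonempty_of_ncard_ne_zero (by rw [hcard]; exact hpos.ne'))
    (fun x hx => ⟨aeval_aut _ hx.1, h1 R hR x hx.1 hx.2⟩) (by rw [hcard]; exact hd)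
  -- the orbit
  set O : Set QQ := (fun j : ℕ => (σ ^ j) x) '' (Set.Iio f) with hO
  have hsubR : ∀ (j : ℕ), aeval ((σ ^ j) x) Q = 0 ∧ aeval (ι ((σ ^ j) x)) R = 0 := by
    intro j
    induction j with
    | zero => exact hx
    | succ j ih =>
      rw [pow_succ', AlgEquiv.mul_apply]
      exact ⟨aeval_aut _ ih.1, h1 R hR _ ih.1 ih.2⟩
  have hOroot : ∀ y ∈ O, aeval y Q = 0 := by
    rintro _ ⟨j, -, rfl⟩
    exact (hsubR j).1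
  have hOst : ∀ y ∈ O, σ y ∈ O := by
    rintro _ ⟨j, hj, rfl⟩
    have hj' : j < f := hj
    by_cases hjf : j + 1 < f
    · refine ⟨j + 1, hjf, ?_⟩
      show (σ ^ (j + 1)) x = σ ((σ ^ j) x)
      rw [pow_succ', AlgEquiv.mul_apply]
    · refine ⟨0, hf, ?_⟩
      have hjf' : j + 1 = f := by omega
      show (σ ^ 0) x = σ ((σ ^ j) x)
      rw [← AlgEquiv.mul_apply, ← pow_succ', hjf', hfx, pow_zero, AlgEquiv.one_apply]
  have hOcard : O.ncard ≤ f := by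
    refine (Set.ncard_image_le (Set.finite_Iio f)).trans ?_
    rw [← Nat.card_coe_set_eq]
    simp
  have hOne : O.Nonempty := ⟨_, 0, hf, rfl⟩
  have hOfin : O.Finite := (Set.finite_Iio f).image _
  obtain ⟨R', hR'm, hR', hR'd, hR'r⟩ := h2 O hOroot hOst
  have hR'pos : 0 < R'.natDegree := by
    rw [hR'd]
    exact (Set.ncard_pos hOfin).2 hOne
  obtain ⟨R₁, hirr, hR₁⟩ := exists_irreducible_of_natDegree_pos hR'pos
  refine ⟨R₁, hirr, ?_, (natDegree_le_of_dvd hR₁ hR'm.ne_zero).trans (hR'd.le.trans hOcard)⟩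
  obtain ⟨y, hy⟩ := IsAlgClosed.exists_aeval_eq_zero (AlgebraicClosure ℚ_[ℓ]) R₁
    (by
      have := hirr.degree_pos
      exact this.ne')
  have hyR' : aeval y R' = 0 := by
    obtain ⟨B, hB⟩ := hR₁
    rw [hB, map_mul, hy, zero_mul]
  have hyQ : aeval y (Q.map (algebraMap ℚ ℚ_[ℓ])) = 0 := by
    obtain ⟨B, hB⟩ := hR'
    rw [hB, map_mul, hyR', zero_mul]
  obtain ⟨x', hx', rfl⟩ := lift_root ℓ ι hQm.ne_zero hyQ
  have hx'O : x' ∈ O := (hR'r x' hx').1 hyR'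
  obtain ⟨j, -, hj⟩ := hx'O
  have hyR : aeval (ι x') R = 0 := by
    rw [← hj]
    exact (hsubR j).2
  by_contra hnd
  obtain ⟨a, b, hab⟩ := (hirr.coprime_iff_not_dvd).2 hnd
  have h3 := congrArg (aeval (ι x')) hab
  rw [map_add, map_mul, map_mul, hy, hyR, mul_zero, mul_zero, add_zero, map_one] at h3
  exact zero_ne_one h3

section
variable {K : Type} [Field K] [NumberField K] {N : ℕ} {S : Set (HeightOneSpectrum (𝓞 K))}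
  {P : HeightOneSpectrum (𝓞 K) → ℚ[X]}
  {Γ : Type} [Group Γ] [TopologicalSpace Γ] [IsTopologicalGroup Γ] [CompactSpace Γ]

/-- a system of representations of `Γ` -/
def GenSys (K : Type) [Field K] [NumberField K] {Γ : Type} [Group Γ] [TopologicalSpace Γ]
    (s : GK K →* Γ) (N ℓ : ℕ) [Fact ℓ.Prime]
    (ρ : Γ →* Matrix (Fin N) (Fin N) ℚ_[ℓ])
    (S : Set (HeightOneSpectrum (𝓞 K))) (P : HeightOneSpectrum (𝓞 K) → ℚ[X]) : Prop :=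
  Continuous ρ ∧ ∀ v ∉ S, (ℓ : 𝓞 K) ∉ v.asIdeal → ∀ σ : GK K, IsFrobenius v σ →
    (ρ (s σ⁻¹)).charpoly = (P v).map (algebraMap ℚ ℚ_[ℓ])

/-- the conclusion: the endomorphisms come from `E`, and semisimplicity, for all open subgroups -/
def GoodEnd (ℓ : ℕ) [Fact ℓ.Prime] (E : IntermediateField ℚ QQ)
    (ρ : Γ →* Matrix (Fin N) (Fin N) ℚ_[ℓ]) (ε : E →+* Matrix (Fin N) (Fin N) ℚ_[ℓ]) : Prop :=
  ∀ U : Subgroup Γ, IsOpen (U : Set Γ) →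
    (∀ X, (∀ τ ∈ U, X * ρ τ = ρ τ * X) → X ∈ Submodule.span ℚ_[ℓ] (Set.range ε)) ∧
    ∀ W : Submodule ℚ_[ℓ] (Fin N → ℚ_[ℓ]), (∀ σ ∈ U, ∀ w ∈ W, ρ σ *ᵥ w ∈ W) →
    ∃ W' : Submodule ℚ_[ℓ] (Fin N → ℚ_[ℓ]), (∀ σ ∈ U, ∀ w ∈ W', ρ σ *ᵥ w ∈ W') ∧ IsCompl W W'

theorem densitySI (hLOC : S_LOC) (hLOGR : S_LOGR) (hKRS : S_KRS) (hCHARA : S_CHARA)
    (hMULTI : S_MULTI) (hFROB : S_FROB) (hINT : S_INT) (hDENS2 : S_DENS2) (hBADD : S_BADD)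
    (hSUB : S_SUB) (hSUBF : S_SUBF) (hEF : S_EF) (hTRD : S_TRD) (hENDE : S_ENDE)
    (hS : S.Finite) (s : GK K →* Γ) (hs : Continuous s)
    (ρ : ∀ (ℓ : ℕ) [Fact ℓ.Prime], Γ →* Matrix (Fin N) (Fin N) ℚ_[ℓ])
    (hsys : ∀ (ℓ : ℕ) [Fact ℓ.Prime], GenSys K s N ℓ (ρ ℓ) S P)
    (E : IntermediateField ℚ QQ) (hfin : FiniteDimensional ℚ E) (hE : Normal ℚ E)
    (n : ℕ) (hn : 0 < n) (hNn : N = n * Module.finrank ℚ E)
    (ε : ∀ (ℓ : ℕ) [Fact ℓ.Prime], E →+* Matrix (Fin N) (Fin N) ℚ_[ℓ])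
    (hε : ∀ (ℓ : ℕ) [Fact ℓ.Prime] (a : E) (γ : Γ), ε ℓ a * ρ ℓ γ = ρ ℓ γ * ε ℓ a)
    (htr : ∀ (ℓ : ℕ) [Fact ℓ.Prime] (a : E),
      (ε ℓ a).trace = (n : ℚ_[ℓ]) * ((Algebra.trace ℚ E a : ℚ) : ℚ_[ℓ]))
    {m : ℕ} (u : Fin (m + 1) → HeightOneSpectrum (𝓞 K)) (hu : ∀ i, NiceP S P (u i))
    (hI : ∀ (g : GK ℚ) (d : ℕ), 0 < d → d < N → ¬ n * ordE E g ∣ d →
      ∃ v, NiceP S P v ∧ ∃ w ∈ NoSet d (P v), w⁻¹ * g ∈ Subgroup.closure (⋃ i, Fix (P (u i))))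
    (hII : ∀ g : GK ℚ, ∃ v, NiceP S P v ∧ ∃ w ∈ Cl2 E n (P v),
      w⁻¹ * g ∈ Subgroup.closure (⋃ i, Fix (P (u i)))) :
    ZI.DensityZero {ℓ | ∃ _ : Fact ℓ.Prime, ¬ GoodEnd ℓ E (ρ ℓ) (ε ℓ)} := by
  classical
  have he : 0 < Module.finrank ℚ E := Module.finrank_pos
  have hN : 0 < N := by
    rw [hNn]
    exact Nat.mul_pos hn he
  have hsys' : ∀ (ℓ : ℕ) [Fact ℓ.Prime], Sys K N ℓ ((ρ ℓ).comp s) S P := fun ℓ _ =>
    ⟨(hsys ℓ).1.comp hs, fun v hv hvℓ σ hσ => (hsys ℓ).2 v hv hvℓ σ hσ⟩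
  have hGd : ∀ v, NiceP S P v → P v ∈ GdE E := by
    intro v hv t ht a ha
    have hdeg := (monic_of_sysA (fun ℓ _ => (ρ ℓ).comp s) hsys' hv.1).2
    refine hEF E hfin hE (P v) hv.2.1 hv.2.2.1 (by rw [hdeg]; exact hN)
      ⟨Ideal.absNorm v.asIdeal, fun ℓ hℓ hp => ?_⟩ t ht a ha
    obtain ⟨τ, hτ⟩ := Pool.Agent.W401.Frob.exists_frob v
    exact ⟨N, ρ ℓ (s τ⁻¹), ε ℓ, (hsys ℓ).2 v hv.1 (not_mem_of_lt v hp.out hℓ) τ hτ,
      fun a => hε ℓ a _⟩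
  obtain ⟨bE, hbE⟩ := frob_conj_E E hfin
  have hord : ∀ ℓ : ℕ, bE < ℓ → ℓ.Prime → ∀ σ σ' : GK ℚ, FrobAt ℓ σ → FrobAt ℓ σ' →
      ordE E σ' = ordE E σ := by
    intro ℓ hℓ hp σ σ' h h'
    obtain ⟨r, hr⟩ := hbE ℓ hℓ hp σ σ' h h'
    rw [ordE_congr hE hr, ordE_conj hE]
  -- the exceptional sets
  have hbad0 : ZI.DensityZero {ℓ : ℕ | ℓ.Prime ∧ ℓ ≤ bE} := by
    refine densityPhi hLOC hLOGR hKRS hCHARA hMULTI hFROB hINT hDENS2 hN hS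
      (fun ℓ _ => (ρ ℓ).comp s) hsys' u hu (Gd := GdE E) hGd (Φ := fun _ => Set.univ)
      ⟨fun _ _ _ _ => trivial, fun _ _ _ _ _ _ => trivial, fun _ _ _ _ _ => trivial⟩
      (fun g => ⟨u 0, hu 0, g, trivial, by rw [inv_mul_cancel]; exact Subgroup.one_mem _⟩)
      _ (fun ℓ hℓ => hℓ.1) (fun v _ => ⟨bE, fun ℓ hℓ h => absurd hℓ.2 (by omega)⟩)
  have hbad1 : ∀ d : ℕ, 0 < d → d < N → ZI.DensityZero {ℓ | ∃ _ : Fact ℓ.Prime,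
      (∀ σ, FrobAt ℓ σ → ¬ n * ordE E σ ∣ d) ∧ ∃ (U : Subgroup Γ)
      (W : Submodule ℚ_[ℓ] (Fin N → ℚ_[ℓ])), IsOpen (U : Set Γ) ∧
        (∀ σ ∈ U, ∀ w ∈ W, ρ ℓ σ *ᵥ w ∈ W) ∧ Module.finrank ℚ_[ℓ] W = d} := by
    intro d hd hdN
    refine densityPhi hLOC hLOGR hKRS hCHARA hMULTI hFROB hINT hDENS2 hN hS
      (fun ℓ _ => (ρ ℓ).comp s) hsys' u hu (Gd := GdE E) hGd (isClass1 hE n d) ?_
      _ (fun ℓ hℓ => hℓ.1.out) ?_
    · intro g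
      by_cases hg : n * ordE E g ∣ d
      · exact ⟨u 0, hu 0, g, Or.inl hg, by rw [inv_mul_cancel]; exact Subgroup.one_mem _⟩
      · obtain ⟨v, hv, w, hw, hwA⟩ := hI g d hd hdN hg
        exact ⟨v, hv, w, Or.inr hw, hwA⟩
    · intro v hv
      obtain ⟨b, hb⟩ := hSUB (P v) hv.2.1 hv.2.2.1
      refine ⟨max b (Ideal.absNorm v.asIdeal), ?_⟩
      rintro ℓ ⟨hp, hno, U, W, hU, hW, hWd⟩ hℓ σ hσ hcl
      rw [max_lt_iff] at hℓ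
      rcases hcl with h | h
      · exact hno σ hσ h
      · have hvℓ := not_mem_of_lt v hp.out hℓ.2
        obtain ⟨τ, hτ⟩ := Pool.Agent.W401.Frob.exists_frob v
        have hchar := (hsys ℓ).2 v hv.1 hvℓ τ hτ
        obtain ⟨R, hRm, hRd, hR⟩ := hBADD ℓ N Γ (ρ ℓ) (hsys ℓ).1 U W hU hW (s τ⁻¹)
          (by rw [hchar]; exact hv.2.2.1.map) (by rw [hchar]; exact dist_of_nice hv ℓ)
        rw [hchar] at hR
        obtain ⟨T, hT, hTn, hTs⟩ := (hb ℓ hℓ.1 hp σ hσ).1 R hRm hR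
        exact h T hT hTs (by rw [hTn, hRd, hWd])
  have hbad2 : ZI.DensityZero {ℓ | ∃ _ : Fact ℓ.Prime, bE < ℓ ∧ ¬ ∃ τ : Γ,
      (ρ ℓ τ).charpoly.Separable ∧ DistPow ℓ (ρ ℓ τ).charpoly ∧
      ∀ σ, FrobAt ℓ σ → ∀ R : ℚ_[ℓ][X], R.Monic → R ∣ (ρ ℓ τ).charpoly → R ≠ 1 →
        n * ordE E σ ∣ R.natDegree →
        ∃ R₁ : ℚ_[ℓ][X], Irreducible R₁ ∧ R₁ ∣ R ∧ R₁.natDegree ≤ ordE E σ} := by
    refine densityPhi hLOC hLOGR hKRS hCHARA hMULTI hFROB hINT hDENS2 hN hS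
      (fun ℓ _ => (ρ ℓ).comp s) hsys' u hu (Gd := GdE E) hGd (isClass2 hE n) hII
      _ (fun ℓ hℓ => hℓ.1.out) ?_
    intro v hv
    obtain ⟨b, hb⟩ := hSUBF (P v) hv.2.1 hv.2.2.1
    refine ⟨max b (Ideal.absNorm v.asIdeal), ?_⟩
    rintro ℓ ⟨hp, hℓE, hno⟩ hℓ σ hσ hcl
    rw [max_lt_iff] at hℓ
    have hvℓ := not_mem_of_lt v hp.out hℓ.2
    obtain ⟨τ, hτ⟩ := Pool.Agent.W401.Frob.exists_frob v
    have hchar := (hsys ℓ).2 v hv.1 hvℓ τ hτ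
    obtain ⟨ι, h1, h2⟩ := hb ℓ hℓ.1 hp σ hσ
    refine hno ⟨s τ⁻¹, by rw [hchar]; exact hv.2.2.1.map,
      by rw [hchar]; exact dist_of_nice hv ℓ, ?_⟩
    rw [hchar]
    intro σ' hσ' R hRm hR hR1 hRd
    rw [hord ℓ hℓE hp.out σ σ' hσ hσ'] at hRd ⊢
    exact factor_of_cl2 ι hv.2.1 hv.2.2.1 (ordE_spec E hfin σ).1 h1 h2 hcl R hRm hR hR1 hRd
  -- the union
  have hunion : ∀ k : ℕ, ZI.DensityZero (⋃ d ∈ {d : ℕ | 0 < d ∧ d < N ∧ d < k},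
      {ℓ | ∃ _ : Fact ℓ.Prime,
      (∀ σ, FrobAt ℓ σ → ¬ n * ordE E σ ∣ d) ∧ ∃ (U : Subgroup Γ)
      (W : Submodule ℚ_[ℓ] (Fin N → ℚ_[ℓ])), IsOpen (U : Set Γ) ∧
        (∀ σ ∈ U, ∀ w ∈ W, ρ ℓ σ *ᵥ w ∈ W) ∧ Module.finrank ℚ_[ℓ] W = d}) := by
    intro k
    induction k with
    | zero =>
      refine ZI.DensityZero.mono hbad0 ?_
      intro ℓ hℓ
      rw [Set.mem_iUnion₂] at hℓ
      obtain ⟨d, hd, -⟩ := hℓ
      exact absurd hd.2.2 (Nat.not_lt_zero _)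
    | succ k ih =>
      by_cases hk : 0 < k ∧ k < N
      · refine ZI.DensityZero.mono (ih.union (hbad1 k hk.1 hk.2)) ?_
        intro ℓ hℓ
        rw [Set.mem_iUnion₂] at hℓ
        obtain ⟨d, hd, hℓ⟩ := hℓ
        rcases Nat.lt_succ_iff_lt_or_eq.1 hd.2.2 with h | h
        · left
          rw [Set.mem_iUnion₂]
          exact ⟨d, ⟨hd.1, hd.2.1, h⟩, hℓ⟩
        · right
          rwa [h] at hℓ
      · refine ZI.DensityZero.mono ih ?_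
        intro ℓ hℓ
        rw [Set.mem_iUnion₂] at hℓ ⊢
        obtain ⟨d, hd, hℓ⟩ := hℓ
        refine ⟨d, ⟨hd.1, hd.2.1, ?_⟩, hℓ⟩
        rcases Nat.lt_succ_iff_lt_or_eq.1 hd.2.2 with h | h
        · exact h
        · exact absurd ⟨h ▸ hd.1, h ▸ hd.2.1⟩ hk
  refine ZI.DensityZero.mono ((hbad0.union hbad2).union (hunion N)) ?_
  rintro ℓ ⟨hp, hng⟩
  by_contra hnot
  apply hng
  rw [Set.mem_union, Set.mem_union, not_or, not_or] at hnot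
  obtain ⟨⟨h0, h2⟩, h1⟩ := hnot
  have hℓE : bE < ℓ := by
    by_contra h
    exact h0 ⟨hp.out, by omega⟩
  obtain ⟨σ, hσ⟩ := Pool.Agent.Y681.ZI.exists_frobAt ℓ hp.out
  have hτ : ∃ τ : Γ,
      (ρ ℓ τ).charpoly.Separable ∧ DistPow ℓ (ρ ℓ τ).charpoly ∧
      ∀ σ, FrobAt ℓ σ → ∀ R : ℚ_[ℓ][X], R.Monic → R ∣ (ρ ℓ τ).charpoly → R ≠ 1 →
        n * ordE E σ ∣ R.natDegree →
        ∃ R₁ : ℚ_[ℓ][X], Irreducible R₁ ∧ R₁ ∣ R ∧ R₁.natDegree ≤ ordE E σ := by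
    by_contra h
    exact h2 ⟨hp, hℓE, h⟩
  obtain ⟨τ, hτs, hτd, hτR⟩ := hτ
  obtain ⟨hf, -⟩ := ordE_spec E hfin σ
  set f := ordE E σ with hfdef
  have hD : 0 < n * f := Nat.mul_pos hn hf
  intro U hU
  have hdvd : ∀ W : Submodule ℚ_[ℓ] (Fin N → ℚ_[ℓ]), (∀ σ ∈ U, ∀ w ∈ W, ρ ℓ σ *ᵥ w ∈ W) →
      n * f ∣ Module.finrank ℚ_[ℓ] W := by
    intro W hW
    have hle : Module.finrank ℚ_[ℓ] W ≤ N := by
      have := Submodule.finrank_le W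
      rwa [Module.finrank_fin_fun] at this
    by_contra hndvd
    have hpos : 0 < Module.finrank ℚ_[ℓ] W := by
      rcases Nat.eq_zero_or_pos (Module.finrank ℚ_[ℓ] W) with h | h
      · rw [h] at hndvd
        exact absurd (dvd_zero _) hndvd
      · exact h
    have hlt : Module.finrank ℚ_[ℓ] W < N := by
      refine lt_of_le_of_ne hle fun h => hndvd ?_
      rw [h, hNn]
      exact Nat.mul_dvd_mul_left n (ordE_dvd hfin hE σ)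
    apply h1
    rw [Set.mem_iUnion₂]
    refine ⟨Module.finrank ℚ_[ℓ] W, ⟨hpos, hlt, hlt⟩, hp, fun σ' hσ' => ?_, U, W, hU, hW, rfl⟩
    rw [hord ℓ hℓE hp.out σ σ' hσ hσ', ← hfdef]
    exact hndvd
  obtain ⟨h3, h4⟩ := hENDE ℓ N Γ (ρ ℓ) U hU (n * f) f hD hf hdvd τ hτs hτd
    (fun R hRm hR hR1 hRd => hτR σ hσ R hRm hR hR1 hRd)
  have h5 := hTRD ℓ N n E hfin hn (ε ℓ) (htr ℓ)
  have h6 : Submodule.span ℚ_[ℓ] (Set.range (ε ℓ)) ≤ Comm (ρ ℓ) U := by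
    rw [Submodule.span_le]
    rintro _ ⟨a, rfl⟩ γ _
    exact hε ℓ a γ
  have h7 : Module.finrank ℚ_[ℓ] (Comm (ρ ℓ) U) ≤ Module.finrank ℚ E := by
    have h8 : (n * f) * Module.finrank ℚ_[ℓ] (Comm (ρ ℓ) U) ≤ (n * f) * Module.finrank ℚ E := by
      refine h3.trans (le_of_eq ?_)
      rw [hNn]
      ring
    exact Nat.le_of_mul_le_mul_left h8 hD
  have h8 : Submodule.span ℚ_[ℓ] (Set.range (ε ℓ)) = Comm (ρ ℓ) U :=
    Submodule.eq_of_le_of_finrank_le h6 (h7.trans h5)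
  refine ⟨fun X hX => ?_, h4 ?_⟩
  · rw [h8]
    exact hX
  · have h9 : Module.finrank ℚ_[ℓ] (Comm (ρ ℓ) U) = Module.finrank ℚ E :=
      le_antisymm h7 (h5.trans (Submodule.finrank_mono h6))
    rw [h9, hNn]
    ring

end

end Pool.Agent.Y142.SI
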